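import Pool.Agent.Helper62.HadTwo
import Pool.Agent.Helper62.HadFac
import Pool.Agent.Helper62.HadFinal

/-!
The orders of the `n`-dimensional Hadamard matrices, `n ≥ 4`: exactly the number one and all even
numbers.
-/

set_option autoImplicit false

namespace Pool.Agent.Results.MP_afadd1_co.AllOrders

/-- the choice of indices which is `x` in position `l` and `i` in the other positions -/
def place {n v : ℕ} (l : Fin n) (x : Fin v) (i : {j : Fin n // j ≠ l} → Fin v) : Fin n → Fin v :=
  fun j => if h : j = l then x else i ⟨j, h⟩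

/-- `n`-dimensional Hadamard matrices of order `v` -/
def IsHadamard {n v : ℕ} (a : (Fin n → Fin v) → ℤ) : Prop :=
  (∀ i, a i = 1 ∨ a i = -1) ∧
    ∀ (l : Fin n) (x y : Fin v),
      ∑ i : {j : Fin n // j ≠ l} → Fin v, a (place l x i) * a (place l y i) =
        if x = y then (v : ℤ) ^ (n - 1) else 0

theorem sum_split {n v : ℕ} (l : Fin n) (x y : Fin v) (a : (Fin n → Fin v) → ℤ) :
    ∑ i : Fin n → Fin v, a (Function.update i l x) * a (Function.update i l y) =
      v * ∑ i : {j : Fin n // j ≠ l} → Fin v, a (place l x i) * a (place l y i) := by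
  classical
  have h1 : ∑ i : Fin n → Fin v, a (Function.update i l x) * a (Function.update i l y) =
      ∑ p : Fin v × ({j : Fin n // j ≠ l} → Fin v), a (place l x p.2) * a (place l y p.2) := by
    refine Fintype.sum_equiv (Equiv.funSplitAt l (Fin v)) _ _ ?_
    intro i
    have h2 : ∀ z : Fin v, Function.update i l z =
        place l z ((Equiv.funSplitAt l (Fin v)) i).2 := by
      intro z
      funext j
      unfold place
      by_cases h : j = l
      · subst h; simp
      · simp [h, Function.update_of_ne h]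
    rw [← h2, ← h2]
  rw [h1, Fintype.sum_prod_type]
  simp

/-- arrays of every even order -/
theorem exists_even (n : ℕ) (hn : 4 ≤ n) (t : ℕ) (ht : 1 ≤ t) :
    ∃ A : (Fin n → Fin (2 * t)) → ℤ,
      (∀ i, A i = 1 ∨ A i = -1) ∧
      ∀ l : Fin n, ∀ x y : Fin (2 * t),
        (∑ i : Fin n → Fin (2 * t),
            A (Function.update i l x) * A (Function.update i l y)) =
          if x = y then ((2 * t : ℕ) : ℤ) ^ n else 0 := by
  revert t ht
  revert n hn
  apply Helper62.result_of_fac
  intro p hp hp2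
  have : Fact p.Prime := ⟨hp⟩
  refine ⟨ZMod p, inferInstance, inferInstance, ZMod.card p, ?_⟩
  have hodd := hp.eq_two_or_odd.resolve_left hp2
  have h4 : p % 4 = 1 ∨ p % 4 = 3 := by omega
  rcases h4 with h | h
  · exact Helper62.fac_one (p / 4) (by omega)
  · exact Helper62.fac_three ((p + 1) / 4) (by omega)

/-- an odd order is at most one -/
theorem order_even {n v : ℕ} (hn : 1 ≤ n) (a : (Fin n → Fin v) → ℤ) (ha : IsHadamard a)
    (hv : 2 ≤ v) : Even v := by
  by_contra hodd
  rw [Nat.not_even_iff_odd] at hodd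
  have h1 := ha.2 ⟨0, hn⟩ ⟨0, by omega⟩ ⟨1, by omega⟩
  rw [if_neg (by simp [Fin.ext_iff])] at h1
  have h2 : ∀ i : {j : Fin n // j ≠ ⟨0, hn⟩} → Fin v,
      ((a (place ⟨0, hn⟩ ⟨0, by omega⟩ i) * a (place ⟨0, hn⟩ ⟨1, by omega⟩ i) : ℤ) : ZMod 2) = 1 := by
    intro i
    rcases ha.1 (place ⟨0, hn⟩ ⟨0, by omega⟩ i) with h | h <;>
      rcases ha.1 (place ⟨0, hn⟩ ⟨1, by omega⟩ i) with h' | h' <;> rw [h, h'] <;> decide
  have h3 := congrArg (Int.cast : ℤ → ZMod 2) h1
  rw [Int.cast_sum, Finset.sum_congr rfl (fun i _ => h2 i)] at h3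
  rw [Finset.sum_const, Finset.card_univ, nsmul_eq_mul, mul_one, Int.cast_zero,
    Fintype.card_fun, Fintype.card_fin] at h3
  rw [ZMod.natCast_eq_zero_iff_even] at h3
  exact absurd h3 (Nat.not_even_iff_odd.mpr hodd.pow)

/-- **The orders of higher-dimensional Hadamard matrices.** -/
theorem result (n : ℕ) (hn : 4 ≤ n) (v : ℕ) (hv : 1 ≤ v) :
    (∃ a : (Fin n → Fin v) → ℤ, IsHadamard a) ↔ v = 1 ∨ Even v := by
  constructor
  · rintro ⟨a, ha⟩
    rcases Nat.lt_or_ge v 2 with h | h
    · left; omega
    · right; exact order_even (by omega) a ha h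
  · rintro (rfl | ⟨t, ht⟩)
    · refine ⟨fun _ => 1, fun _ => Or.inl rfl, ?_⟩
      intro l x y
      have : x = y := Subsingleton.elim x y
      simp [this]
    · obtain rfl : v = 2 * t := by omega
      obtain ⟨A, hA, hB⟩ := exists_even n hn t (by omega)
      refine ⟨A, hA, ?_⟩
      intro l x y
      have h1 := hB l x y
      rw [sum_split] at h1
      have h2 : (((2 * t : ℕ)) : ℤ) ≠ 0 := by
        have : 2 * t ≠ 0 := by omega
        exact_mod_cast this
      apply mul_left_cancel₀ h2
      rw [h1]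
      split_ifs with h
      · rw [← pow_succ', Nat.sub_add_cancel (by omega)]
      · rw [mul_zero]

end Pool.Agent.Results.MP_afadd1_co.AllOrders
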